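import Pool.Agent.Y782.WU.Stm

/-!
# The exhaustion given by the exponential races
-/

set_option autoImplicit false

open MeasureTheory ProbabilityTheory Filter Topology
open scoped ENNReal NNReal BigOperators unitInterval

namespace Pool.Agent.Y168.WU

open Pool.Agent.Y782.WU

theorem mpc (V : Type) (m : ℕ) : MeasurePreserving (fun (r : V → ℕ → I) (c : V) => r c m)
    (Measure.infinitePi (fun _ : V => Measure.infinitePi (fun _ : ℕ => (volume : Measure I))))
    (Measure.infinitePi (fun _ : V => (volume : Measure I))) := by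
  have hm : Measurable (fun (r : V → ℕ → I) (c : V) => r c m) :=
    measurable_pi_lambda _ fun c => (measurable_pi_apply m).comp (measurable_pi_apply c)
  refine ⟨hm, Measure.eq_infinitePi _ fun s t ht => ?_⟩
  rw [Measure.map_apply hm (MeasurableSet.pi s.countable_toSet fun i _ => ht i)]
  have h1 : (fun (r : V → ℕ → I) (c : V) => r c m) ⁻¹' (Set.pi s t) =
      Set.pi s (fun c => Function.eval m ⁻¹' (t c)) := by
    ext r
    simp only [Set.mem_preimage, Set.mem_pi, Function.eval]
  rw [h1, Measure.infinitePi_pi _ (fun i _ => measurable_pi_apply m (ht i))]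
  refine Finset.prod_congr rfl fun i _ => ?_
  exact (measurePreserving_eval_infinitePi (fun _ : ℕ => (volume : Measure I)) m).measure_preimage
    (ht i).nullMeasurableSet

theorem win_uniq {V : Type} {a : V → ℝ≥0∞} {E : V → ℝ} {c c' : V} (h : win a E c)
    (h' : win a E c') : c = c' := by
  by_contra hne
  have h1 := h.2 c' (Ne.symm hne)
  have h2 := h'.2 c hne
  linarith

theorem ex (h1 : S_RC) (h2 : S_GR) : S_EX := by
  intro V _ G ks hG hq
  obtain ⟨g1, g2, -⟩ := h2 V G hG
  obtain ⟨μ, hμ⟩ : ∃ μ : Measure (V → ℕ → I),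
    μ = Measure.infinitePi (fun _ : V => Measure.infinitePi (fun _ : ℕ => (volume : Measure I))) :=
    ⟨_, rfl⟩
  have hw : ∀ n y c, μ {r | win (ab G (ks n) y) (fun c => er (r c n)) c} = ab G (ks n) y c := by
    intro n y c
    have h := h1 V (ab G (ks n) y) (ab G (ks n) y) (g1 _ _) (g1 _ _)
    rw [← h.2.2.1 c, ← (mpc V n).measure_preimage (h.1 c).nullMeasurableSet, hμ]
    rfl
  have hs : ∀ n x y, μ {r | ¬ sm (ab G (ks n) x) (ab G (ks n) y) (fun c => er (r c n))} ≤
      l1 (ab G (ks n) x) (ab G (ks n) y) := by
    intro n x y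
    have h := h1 V (ab G (ks n) x) (ab G (ks n) y) (g1 _ _) (g1 _ _)
    refine le_trans (le_of_eq ?_) h.2.2.2
    have h3 := (mpc V n).measure_preimage h.2.1.compl.nullMeasurableSet
    rw [hμ]
    exact h3
  have hf : ∀ᵐ r ∂μ, ∀ n c, {y | win (ab G (ks n) y) (fun c => er (r c n)) c}.Finite := by
    rw [ae_all_iff]
    intro n
    rw [ae_all_iff]
    intro c
    have h3 : ∑' y, μ {r | win (ab G (ks n) y) (fun c => er (r c n)) c} ≠ ⊤ := by
      rw [tsum_congr (fun y => hw n y c)]
      exact ((g2 (ks n) c).trans_lt (ENNReal.natCast_lt_top _)).ne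
    exact ae_finite_setOfPred_mem h3
  have hu : ∀ᵐ r ∂μ, ∀ x y, G.Adj x y →
      ∀ᶠ m in atTop, sm (ab G (ks m) x) (ab G (ks m) y) (fun c => er (r c m)) := by
    rw [ae_all_iff]
    intro x
    rw [ae_all_iff]
    intro y
    by_cases hxy : G.Adj x y
    · have h3 : ∑' m, μ {r | ¬ sm (ab G (ks m) x) (ab G (ks m) y) (fun c => er (r c m))} ≠ ⊤ := by
        refine ne_of_lt (lt_of_le_of_lt (ENNReal.tsum_le_tsum fun m => ?_) (hq x))
        refine (hs m x y).trans ?_
        rw [qq]
        refine le_trans (le_of_eq ?_) (ENNReal.le_tsum y)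
        rw [if_pos hxy]
      filter_upwards [ae_eventually_notMem h3] with r hr _
      filter_upwards [hr] with m hm
      exact not_not.1 hm
    · exact Eventually.of_forall fun r h => absurd h hxy
  rw [← hμ]
  filter_upwards [hf, hu] with r hrf hru
  refine ⟨rfl, ?_, ?_, ?_⟩
  · refine monotone_nat_of_le_succ fun n => ?_
    cases n with
    | zero => exact bot_le
    | succ n =>
      intro a b hab
      rw [Hg, SimpleGraph.fromRel_adj] at hab ⊢
      refine ⟨hab.1, ?_⟩
      rcases hab.2 with h | h
      · exact Or.inl ⟨h.1, fun m hm => h.2 m (by omega)⟩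
      · exact Or.inr ⟨h.1, fun m hm => h.2 m (by omega)⟩
  · intro n x
    cases n with
    | zero =>
      refine (Set.finite_singleton x).subset ?_
      intro w hw
      have h3 : (⊥ : SimpleGraph V).Reachable x w := hw
      rw [SimpleGraph.reachable_bot] at h3
      exact h3.symm
    | succ n =>
      have h3 : ∀ w, (Hg ks G r (n + 1)).Reachable x w → w = x ∨
          ∃ c, win (ab G (ks n) x) (fun c => er (r c n)) c ∧
            win (ab G (ks n) w) (fun c => er (r c n)) c := by
        intro w hw
        rw [SimpleGraph.reachable_iff_reflTransGen] at hw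
        induction hw with
        | refl => exact Or.inl rfl
        | @tail u v _ huv ih =>
          right
          have h4 : sm (ab G (ks n) u) (ab G (ks n) v) (fun c => er (r c n)) := by
            rw [Hg, SimpleGraph.fromRel_adj] at huv
            rcases huv.2 with h | h
            · exact h.2 n le_rfl
            · obtain ⟨c, hc1, hc2⟩ := h.2 n le_rfl
              exact ⟨c, hc2, hc1⟩
          obtain ⟨c, hc1, hc2⟩ := h4
          rcases ih with rfl | ⟨c', hc3, hc4⟩
          · exact ⟨c, hc1, hc2⟩
          · obtain rfl := win_uniq hc4 hc1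
            exact ⟨_, hc3, hc2⟩
      by_cases hx : ∃ c, win (ab G (ks n) x) (fun c => er (r c n)) c
      · obtain ⟨c, hc⟩ := hx
        refine ((Set.finite_singleton x).union (hrf n c)).subset ?_
        intro w hw
        rcases h3 w hw with h | ⟨c', hc1, hc2⟩
        · exact Or.inl h
        · obtain rfl := win_uniq hc hc1
          exact Or.inr hc2
      · refine (Set.finite_singleton x).subset ?_
        intro w hw
        rcases h3 w hw with h | ⟨c', hc1, hc2⟩
        · exact h
        · exact absurd ⟨c', hc1⟩ hx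
  · intro x y
    constructor
    · intro h
      obtain ⟨N, hN⟩ := eventually_atTop.1 (hru x y h)
      refine ⟨N + 1, ?_⟩
      rw [Hg, SimpleGraph.fromRel_adj]
      exact ⟨h.ne, Or.inl ⟨h, hN⟩⟩
    · rintro ⟨n, hn⟩
      cases n with
      | zero => exact absurd hn (by rw [Hg]; exact fun h => h)
      | succ n =>
        rw [Hg, SimpleGraph.fromRel_adj] at hn
        rcases hn.2 with h | h
        · exact h.1
        · exact h.1.symm

end Pool.Agent.Y168.WU
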