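import Pool.Agent.Y782.WU.Stm

/-!
# Exponential races
-/

set_option autoImplicit false

open MeasureTheory ProbabilityTheory Filter Topology
open scoped ENNReal NNReal BigOperators unitInterval

namespace Pool.Agent.Y168.WU

open Pool.Agent.Y782.WU

theorem er_nonneg (x : I) : 0 ≤ er x := by
  rw [er]
  have := Real.log_nonpos x.2.1 x.2.2
  linarith

theorem er_meas : Measurable er := (Real.measurable_log.comp measurable_subtype_coe).neg

theorem vol_er {s : ℝ} (hs : 0 ≤ s) :
    (volume : Measure I) {u | s < er u} = ENNReal.ofReal (Real.exp (-s)) := by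
  have he : Real.exp (-s) ∈ I := ⟨(Real.exp_pos _).le, Real.exp_le_one_iff.2 (by linarith)⟩
  have h1 : {u : I | s < er u} = Set.Ioo 0 ⟨Real.exp (-s), he⟩ := by
    ext u
    constructor
    · intro hu
      have hu' : s < -Real.log u := hu
      have hpos : 0 < (u : ℝ) := by
        rcases u.2.1.eq_or_lt with h | h
        · rw [← h, Real.log_zero] at hu'
          linarith
        · exact h
      refine ⟨hpos, ?_⟩
      show (u : ℝ) < Real.exp (-s)
      rw [← Real.log_lt_iff_lt_exp hpos]
      linarith
    · rintro ⟨h1, h2⟩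
      have hpos : 0 < (u : ℝ) := h1
      have h3 : (u : ℝ) < Real.exp (-s) := h2
      rw [← Real.log_lt_iff_lt_exp hpos] at h3
      show s < -Real.log u
      linarith
  rw [h1, unitInterval.volume_Ioo]
  simp

theorem hasProd_exp {ι : Type} {f : ι → ℝ} {a : ℝ} (h : HasSum f a) :
    HasProd (fun i => ENNReal.ofReal (Real.exp (-f i))) (ENNReal.ofReal (Real.exp (-a))) := by
  have h1 : HasProd (fun i => Real.exp (-f i)) (Real.exp (-a)) := h.neg.rexp
  have h2 : Tendsto (fun s : Finset ι => ENNReal.ofReal (∏ i ∈ s, Real.exp (-f i))) atTop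
      (𝓝 (ENNReal.ofReal (Real.exp (-a)))) :=
    (ENNReal.continuous_ofReal.tendsto _).comp h1
  exact h2.congr fun s => ENNReal.ofReal_prod_of_nonneg fun i _ => (Real.exp_pos _).le

section
variable {V : Type} [Countable V]

theorem box (c : V) (q : V → ℝ) (hq : ∀ v, 0 ≤ q v) (Q : ℝ)
    (hQ : HasSum (fun v : ({c}ᶜ : Set V) => q v) Q) (y : I) :
    Measure.infinitePi (fun _ : V => (volume : Measure I))
      {x | ∀ v, v ≠ c → q v * er y < er (x v)} = ENNReal.ofReal (Real.exp (-(Q * er y))) := by
  have h1 : {x : V → I | ∀ v, v ≠ c → q v * er y < er (x v)} =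
      Set.pi ({c}ᶜ : Set V) (fun v => {u | q v * er y < er u}) := by
    ext x
    simp only [Set.mem_pi, Set.mem_compl_iff, Set.mem_singleton_iff]
    rfl
  rw [h1, Measure.infinitePi_pi_of_countable _ inferInstance
    (fun v _ => measurableSet_lt measurable_const er_meas)]
  have h2 : ∀ v : ({c}ᶜ : Set V), (volume : Measure I) {u | q v * er y < er u} =
      ENNReal.ofReal (Real.exp (-(q v * er y))) := fun v =>
    vol_er (mul_nonneg (hq v) (er_nonneg y))
  simp only [h2]
  exact (hasProd_exp (hQ.mul_right (er y))).tprod_eq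

/-- the product measure is reproduced by resampling one coordinate -/
theorem upd [DecidableEq V] (c : V) :
    ((volume : Measure I).prod (Measure.infinitePi (fun _ : V => (volume : Measure I)))).map
      (fun p : I × (V → I) => Function.update p.2 c p.1) =
    Measure.infinitePi (fun _ : V => (volume : Measure I)) := by
  have hm : Measurable (fun p : I × (V → I) => Function.update p.2 c p.1) :=
    measurable_update'.comp (measurable_snd.prodMk measurable_fst)
  refine Measure.eq_infinitePi _ fun s t ht => ?_
  rw [Measure.map_apply hm (MeasurableSet.pi s.countable_toSet fun i _ => ht i)]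
  have h1 : (fun p : I × (V → I) => Function.update p.2 c p.1) ⁻¹' (Set.pi s t) =
      (if c ∈ s then t c else Set.univ) ×ˢ Set.pi (s.erase c : Finset V) t := by
    ext ⟨y, x⟩
    simp only [Set.mem_preimage, Set.mem_pi, Set.mem_prod, Finset.coe_erase, Set.mem_sdiff,
      Set.mem_singleton_iff, Finset.mem_coe]
    constructor
    · intro h
      constructor
      · split_ifs with hc
        · have := h c hc
          rwa [Function.update_self] at this
        · trivial
      · rintro i ⟨hi, hic⟩
        have := h i hi
        rwa [Function.update_of_ne hic] at this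
    · rintro ⟨h2, h3⟩ i hi
      by_cases hic : i = c
      · subst hic
        rw [Function.update_self]
        rwa [if_pos hi] at h2
      · rw [Function.update_of_ne hic]
        exact h3 i ⟨hi, hic⟩
  rw [h1, Measure.prod_prod, Measure.infinitePi_pi _ (fun i _ => ht i)]
  by_cases hc : c ∈ s
  · rw [if_pos hc, Finset.mul_prod_erase s (fun i => (volume : Measure I) (t i)) hc]
  · rw [if_neg hc, Finset.erase_eq_of_notMem hc, measure_univ, one_mul]

theorem int_er {Q : ℝ} (hQ : 0 ≤ Q) :
    ∫⁻ y : I, ENNReal.ofReal (Real.exp (-(Q * er y))) = ENNReal.ofReal (1 / (1 + Q)) := by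
  have hF : Measurable (fun y : ℝ => ENNReal.ofReal (Real.exp (Q * Real.log y))) :=
    (Real.measurable_exp.comp (Real.measurable_log.const_mul Q)).ennreal_ofReal
  have h1 : ∫⁻ y : I, ENNReal.ofReal (Real.exp (-(Q * er y))) =
      ∫⁻ y in I, ENNReal.ofReal (Real.exp (Q * Real.log y)) := by
    rw [← unitInterval.measurePreserving_coe.lintegral_comp hF]
    refine lintegral_congr fun y => ?_
    rw [er]
    congr 2
    ring
  have h2 : (volume : Measure ℝ).restrict I = volume.restrict (Set.Ioc 0 1) :=
    Measure.restrict_congr_set Ioc_ae_eq_Icc.symm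
  have h3 : ∫⁻ y in Set.Ioc (0 : ℝ) 1, ENNReal.ofReal (Real.exp (Q * Real.log y)) =
      ∫⁻ y in Set.Ioc (0 : ℝ) 1, ENNReal.ofReal (y ^ Q) := by
    refine setLIntegral_congr_fun measurableSet_Ioc fun y hy => ?_
    rw [Real.rpow_def_of_pos hy.1, mul_comm]
  have hi : IntervalIntegrable (fun y : ℝ => y ^ Q) volume 0 1 :=
    intervalIntegral.intervalIntegrable_rpow' (by linarith)
  rw [intervalIntegrable_iff_integrableOn_Ioc_of_le zero_le_one] at hi
  rw [h1, h2, h3, ← ofReal_integral_eq_lintegral_ofReal hi, ← intervalIntegral.integral_of_le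
    zero_le_one, integral_rpow (Or.inl (by linarith))]
  · congr 1
    rw [Real.one_rpow, Real.zero_rpow (by linarith), sub_zero, add_comm]
  · filter_upwards [ae_restrict_mem measurableSet_Ioc] with y hy
    exact Real.rpow_nonneg hy.1.le _

/-- the probability of winning a race -/
theorem race (c : V) (q : V → ℝ) (hq : ∀ v, 0 ≤ q v) (Q : ℝ)
    (hQ : HasSum (fun v : ({c}ᶜ : Set V) => q v) Q) :
    Measure.infinitePi (fun _ : V => (volume : Measure I))
      {x | ∀ v, v ≠ c → q v * er (x c) < er (x v)} = ENNReal.ofReal (1 / (1 + Q)) := by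
  classical
  have hQ0 : 0 ≤ Q := by
    rw [← hQ.tsum_eq]
    exact tsum_nonneg fun v => hq v
  have hA : MeasurableSet {x : V → I | ∀ v, v ≠ c → q v * er (x c) < er (x v)} := by
    have h1 : {x : V → I | ∀ v, v ≠ c → q v * er (x c) < er (x v)} =
        ⋂ v, ⋂ (_ : v ≠ c), {x : V → I | q v * er (x c) < er (x v)} := by
      ext x
      simp only [Set.mem_iInter]
      rfl
    rw [h1]
    refine MeasurableSet.iInter fun v => MeasurableSet.iInter fun _ => ?_
    exact measurableSet_lt ((er_meas.comp (measurable_pi_apply c)).const_mul _)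
      (er_meas.comp (measurable_pi_apply v))
  have hm : Measurable (fun p : I × (V → I) => Function.update p.2 c p.1) :=
    measurable_update'.comp (measurable_snd.prodMk measurable_fst)
  rw [← int_er hQ0, ← upd c, Measure.map_apply hm hA, Measure.prod_apply (hm hA)]
  refine lintegral_congr fun y => ?_
  rw [← box c q hq Q hQ y]
  congr 1
  ext x
  simp only [Set.mem_preimage]
  constructor
  · intro h v hv
    have := h v hv
    rwa [Function.update_self, Function.update_of_ne hv] at this
  · intro h v hv
    rw [Function.update_self, Function.update_of_ne hv]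
    exact h v hv

theorem meas_win (a : V → ℝ≥0∞) (c : V) :
    MeasurableSet {x : V → I | win a (fun v => er (x v)) c} := by
  have h1 : {x : V → I | win a (fun v => er (x v)) c} =
      {x : V → I | 0 < (a c).toReal} ∩
        ⋂ v, ⋂ (_ : v ≠ c), {x : V → I | (a v).toReal * er (x c) < (a c).toReal * er (x v)} := by
    ext x
    simp only [Set.mem_iInter, Set.mem_inter_iff]
    rfl
  rw [h1]
  refine (MeasurableSet.const _).inter
    (MeasurableSet.iInter fun v => MeasurableSet.iInter fun _ => ?_)
  exact measurableSet_lt ((er_meas.comp (measurable_pi_apply c)).const_mul _)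
    ((er_meas.comp (measurable_pi_apply v)).const_mul _)

theorem meas_sm (a b : V → ℝ≥0∞) : MeasurableSet {x : V → I | sm a b (fun v => er (x v))} := by
  have h1 : {x : V → I | sm a b (fun v => er (x v))} =
      ⋃ c, ({x : V → I | win a (fun v => er (x v)) c} ∩ {x | win b (fun v => er (x v)) c}) := by
    ext x
    simp only [Set.mem_iUnion, Set.mem_inter_iff]
    rfl
  rw [h1]
  exact MeasurableSet.iUnion fun c => (meas_win a c).inter (meas_win b c)

omit [Countable V] in
theorem win_unique {a : V → ℝ≥0∞} {E : V → ℝ} {c c' : V} (h : win a E c) (h' : win a E c') :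
    c = c' := by
  by_contra hne
  have h1 := h.2 c' (Ne.symm hne)
  have h2 := h'.2 c hne
  linarith

omit [Countable V] in
theorem toReal_sum {a : V → ℝ≥0∞} (ha : ∑' c, a c = 1) :
    (∀ c, a c ≤ 1) ∧ HasSum (fun c => (a c).toReal) 1 := by
  have h1 : ∀ c, a c ≤ 1 := fun c => ha ▸ ENNReal.le_tsum c
  have h2 := ENNReal.hasSum_toReal (f := a) (by rw [ha]; exact ENNReal.one_ne_top)
  rw [← ENNReal.tsum_toReal_eq (fun c => ((h1 c).trans_lt ENNReal.one_lt_top).ne), ha,
    ENNReal.toReal_one] at h2
  exact ⟨h1, h2⟩

omit [Countable V] in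
theorem sum_compl {f : V → ℝ} {S : ℝ} (h : HasSum f S) (c : V) :
    HasSum (fun v : ({c}ᶜ : Set V) => f v) (S - f c) := by
  have h1 : HasSum (fun v : ({c} : Set V) => f v) (f c) := by
    have := hasSum_unique (fun v : ({c} : Set V) => f v)
    exact this
  have h2 := (hasSum_subtype_iff_indicator (f := f) (s := ({c} : Set V))).1 h1
  rw [show (fun v : ({c}ᶜ : Set V) => f v) = f ∘ Subtype.val from rfl,
    hasSum_subtype_iff_indicator]
  have h3 := h.sub h2
  have h4 : (fun b => f b - ({c} : Set V).indicator f b) = ({c}ᶜ : Set V).indicator f := by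
    funext b
    by_cases hb : b = c
    · rw [Set.indicator_of_mem (by exact hb), Set.indicator_of_notMem (by simpa using hb), sub_self]
    · rw [Set.indicator_of_notMem (by exact hb), Set.indicator_of_mem (by simpa using hb), sub_zero]
  rw [h4] at h3
  exact h3

theorem p_win {a : V → ℝ≥0∞} (ha : ∑' c, a c = 1) (c : V) :
    Measure.infinitePi (fun _ : V => (volume : Measure I))
      {x | win a (fun v => er (x v)) c} = a c := by
  obtain ⟨h1, h2⟩ := toReal_sum ha
  have hc : a c ≠ ⊤ := ((h1 c).trans_lt ENNReal.one_lt_top).ne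
  by_cases h0 : (a c).toReal = 0
  · have h3 : {x : V → I | win a (fun v => er (x v)) c} = ∅ := by
      ext x
      refine ⟨fun h => ?_, fun h => h.elim⟩
      exact absurd h.1 (by rw [h0]; exact lt_irrefl _)
    rw [h3, measure_empty]
    exact (((ENNReal.toReal_eq_zero_iff _).1 h0).resolve_right hc).symm
  · have hp : 0 < (a c).toReal := lt_of_le_of_ne ENNReal.toReal_nonneg (Ne.symm h0)
    have h3 := (sum_compl h2 c).div_const (a c).toReal
    have h4 := race c (fun v => (a v).toReal / (a c).toReal) (fun v => by positivity) _ h3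
    have h5 : {x : V → I | win a (fun v => er (x v)) c} =
        {x | ∀ v, v ≠ c → (a v).toReal / (a c).toReal * er (x c) < er (x v)} := by
      ext x
      constructor
      · intro h v hv
        have := h.2 v hv
        rw [div_mul_eq_mul_div, div_lt_iff₀ hp, mul_comm (er (x v))]
        exact this
      · intro h
        refine ⟨hp, fun v hv => ?_⟩
        have := h v hv
        rw [div_mul_eq_mul_div, div_lt_iff₀ hp, mul_comm (er (x v))] at this
        exact this
    rw [h5, h4]
    have h6 : 1 / (1 + (1 - (a c).toReal) / (a c).toReal) = (a c).toReal := by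
      field_simp
      ring
    rw [h6, ENNReal.ofReal_toReal hc]

theorem p_sm {a b : V → ℝ≥0∞} (ha : ∑' c, a c = 1) (hb : ∑' c, b c = 1) :
    Measure.infinitePi (fun _ : V => (volume : Measure I))
      {x | ¬ sm a b (fun v => er (x v))} ≤ l1 a b := by
  obtain ⟨ha1, ha2⟩ := toReal_sum ha
  obtain ⟨hb1, hb2⟩ := toReal_sum hb
  obtain ⟨α, hα⟩ : ∃ α : V → ℝ, α = fun c => (a c).toReal := ⟨_, rfl⟩
  obtain ⟨β, hβ⟩ : ∃ β : V → ℝ, β = fun c => (b c).toReal := ⟨_, rfl⟩
  rw [← hα] at ha2
  rw [← hβ] at hb2
  have hα0 : ∀ c, 0 ≤ α c := fun c => by rw [hα]; exact ENNReal.toReal_nonneg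
  have hβ0 : ∀ c, 0 ≤ β c := fun c => by rw [hβ]; exact ENNReal.toReal_nonneg
  -- the distance
  have hsT : Summable fun c => |α c - β c| := (ha2.summable.sub hb2.summable).abs
  obtain ⟨D, hD⟩ : ∃ D, D = ∑' c, |α c - β c| := ⟨_, rfl⟩
  have hD1 : HasSum (fun c => |α c - β c|) D := by
    rw [hD]
    exact hsT.hasSum
  have hl1 : l1 a b = ENNReal.ofReal D := by
    rw [hD, ENNReal.ofReal_tsum_of_nonneg (fun _ => abs_nonneg _) hsT, l1]
    refine tsum_congr fun c => ?_
    have hac : a c = ENNReal.ofReal (α c) := by
      rw [hα]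
      exact (ENNReal.ofReal_toReal ((ha1 c).trans_lt ENNReal.one_lt_top).ne).symm
    have hbc : b c = ENNReal.ofReal (β c) := by
      rw [hβ]
      exact (ENNReal.ofReal_toReal ((hb1 c).trans_lt ENNReal.one_lt_top).ne).symm
    rw [hac, hbc, ← ENNReal.ofReal_sub _ (hβ0 c), ← ENNReal.ofReal_sub _ (hα0 c)]
    rcases le_total (α c) (β c) with h | h
    · rw [ENNReal.ofReal_of_nonpos (by linarith : α c - β c ≤ 0), zero_add,
        abs_of_nonpos (by linarith)]
      congr 1
      ring
    · rw [ENNReal.ofReal_of_nonpos (by linarith : β c - α c ≤ 0), add_zero,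
        abs_of_nonneg (by linarith)]
  have hm : HasSum (fun c => min (α c) (β c)) (1 - D / 2) := by
    have h1 := ((ha2.add hb2).sub hD1).div_const 2
    have h2 : (fun c => (α c + β c - |α c - β c|) / 2) = fun c => min (α c) (β c) := by
      funext c
      rcases le_total (α c) (β c) with h | h
      · rw [min_eq_left h, abs_of_nonpos (by linarith)]
        ring
      · rw [min_eq_right h, abs_of_nonneg (by linarith)]
        ring
    have h3 : (1 + 1 - D) / 2 = 1 - D / 2 := by ring
    rw [h2, h3] at h1
    exact h1
  have hM : HasSum (fun c => max (α c) (β c)) (1 + D / 2) := by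
    have h1 := ((ha2.add hb2).add hD1).div_const 2
    have h2 : (fun c => (α c + β c + |α c - β c|) / 2) = fun c => max (α c) (β c) := by
      funext c
      rcases le_total (α c) (β c) with h | h
      · rw [max_eq_right h, abs_of_nonpos (by linarith)]
        ring
      · rw [max_eq_left h, abs_of_nonneg (by linarith)]
        ring
    have h3 : (1 + 1 + D) / 2 = 1 + D / 2 := by ring
    rw [h2, h3] at h1
    exact h1
  have hD0 : 0 ≤ D := hD1.nonneg fun _ => abs_nonneg _
  have hSM : 0 < 1 + D / 2 := by linarith
  -- lower bound for each candidate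
  have hlow : ∀ c, ENNReal.ofReal (min (α c) (β c) / (1 + D / 2)) ≤
      Measure.infinitePi (fun _ : V => (volume : Measure I))
        ({x | win a (fun v => er (x v)) c} ∩ {x | win b (fun v => er (x v)) c}) := by
    intro c
    have hmc0 : 0 ≤ min (α c) (β c) := le_min (hα0 c) (hβ0 c)
    rcases hmc0.eq_or_lt with h0 | h0
    · rw [← h0, zero_div, ENNReal.ofReal_zero]
      exact zero_le
    · have h3 := (sum_compl hM c).div_const (min (α c) (β c))
      have h4 := race c (fun v => max (α v) (β v) / min (α c) (β c))
        (fun v => div_nonneg (le_max_of_le_left (hα0 v)) hmc0) _ h3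
      have hsub : {x : V → I | ∀ v, v ≠ c →
          max (α v) (β v) / min (α c) (β c) * er (x c) < er (x v)} ⊆
          {x | win a (fun v => er (x v)) c} ∩ {x | win b (fun v => er (x v)) c} := by
        intro x hx
        have hx1 : ∀ v, v ≠ c → max (α v) (β v) * er (x c) < er (x v) * min (α c) (β c) := by
          intro v hv
          have := hx v hv
          rw [div_mul_eq_mul_div, div_lt_iff₀ h0] at this
          exact this
        constructor
        · refine ⟨?_, fun v hv => ?_⟩
          · have := lt_of_lt_of_le h0 (min_le_left _ _)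
            rw [hα] at this
            exact this
          · have h5 := hx1 v hv
            have h6 : α v * er (x c) ≤ max (α v) (β v) * er (x c) :=
              mul_le_mul_of_nonneg_right (le_max_left _ _) (er_nonneg _)
            have h7 : er (x v) * min (α c) (β c) ≤ α c * er (x v) := by
              rw [mul_comm]
              exact mul_le_mul_of_nonneg_right (min_le_left _ _) (er_nonneg _)
            have h8 := (h6.trans_lt h5).trans_le h7
            rw [hα] at h8
            exact h8
        · refine ⟨?_, fun v hv => ?_⟩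
          · have := lt_of_lt_of_le h0 (min_le_right _ _)
            rw [hβ] at this
            exact this
          · have h5 := hx1 v hv
            have h6 : β v * er (x c) ≤ max (α v) (β v) * er (x c) :=
              mul_le_mul_of_nonneg_right (le_max_right _ _) (er_nonneg _)
            have h7 : er (x v) * min (α c) (β c) ≤ β c * er (x v) := by
              rw [mul_comm]
              exact mul_le_mul_of_nonneg_right (min_le_right _ _) (er_nonneg _)
            have h8 := (h6.trans_lt h5).trans_le h7
            rw [hβ] at h8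
            exact h8
      refine le_trans ?_ (measure_mono hsub)
      rw [h4]
      refine ENNReal.ofReal_le_ofReal ?_
      have h9 : 1 + (1 + D / 2 - max (α c) (β c)) / min (α c) (β c) =
          (min (α c) (β c) + (1 + D / 2 - max (α c) (β c))) / min (α c) (β c) := by
        field_simp
      have h10 : max (α c) (β c) ≤ 1 + D / 2 := le_hasSum hM c fun v _ => le_max_of_le_left (hα0 v)
      have h11 : 0 < min (α c) (β c) + (1 + D / 2 - max (α c) (β c)) := by linarith
      rw [h9, one_div_div]
      refine div_le_div_of_nonneg_left hmc0 h11 ?_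
      have := min_le_max (a := α c) (b := β c)
      linarith
  -- sum over the candidates
  have hsmU : {x : V → I | sm a b (fun v => er (x v))} =
      ⋃ c, ({x : V → I | win a (fun v => er (x v)) c} ∩ {x | win b (fun v => er (x v)) c}) := by
    ext x
    simp only [Set.mem_iUnion, Set.mem_inter_iff]
    rfl
  have hsum : ENNReal.ofReal ((1 - D / 2) / (1 + D / 2)) ≤
      Measure.infinitePi (fun _ : V => (volume : Measure I))
        {x | sm a b (fun v => er (x v))} := by
    rw [hsmU, measure_iUnion]
    · have h1 : ENNReal.ofReal ((1 - D / 2) / (1 + D / 2)) =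
          ∑' c, ENNReal.ofReal (min (α c) (β c) / (1 + D / 2)) := by
        rw [← (hm.div_const (1 + D / 2)).tsum_eq, ENNReal.ofReal_tsum_of_nonneg
          (fun c => div_nonneg (le_min (hα0 c) (hβ0 c)) hSM.le) (hm.div_const _).summable]
      rw [h1]
      exact ENNReal.tsum_le_tsum hlow
    · intro c c' hne
      refine Set.disjoint_left.2 fun x hx hx' => hne ?_
      exact win_unique (a := a) (E := fun v => er (x v)) hx.1 hx'.1
    · exact fun c => (meas_win a c).inter (meas_win b c)
  have hcompl : {x : V → I | ¬ sm a b (fun v => er (x v))} =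
      {x : V → I | sm a b (fun v => er (x v))}ᶜ := rfl
  rw [hcompl, prob_compl_eq_one_sub (meas_sm a b), hl1]
  refine (tsub_le_tsub_left hsum 1).trans (tsub_le_iff_right.2 ?_)
  rcases le_or_gt 2 D with h2 | h2
  · refine le_trans ?_ le_self_add
    rw [← ENNReal.ofReal_one]
    exact ENNReal.ofReal_le_ofReal (by linarith)
  · have h3 : 0 ≤ (1 - D / 2) / (1 + D / 2) := div_nonneg (by linarith) hSM.le
    rw [← ENNReal.ofReal_add hD0 h3, ← ENNReal.ofReal_one]
    refine ENNReal.ofReal_le_ofReal ?_
    have h4 : (1 - D / 2) / (1 + D / 2) = 1 - D / (1 + D / 2) := by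
      field_simp
      ring
    have h5 : D / (1 + D / 2) ≤ D := div_le_self hD0 (by linarith)
    rw [h4]
    linarith

end

theorem rc : S_RC := fun _ _ a b ha hb =>
  ⟨fun c => meas_win a c, meas_sm a b, fun c => p_win ha c, p_sm ha hb⟩

end Pool.Agent.Y168.WU
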